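import Pool.Agent.W845.GL.Stm

/-! GL-K1: Tonelli for stars. -/

set_option autoImplicit false

namespace Pool.Agent.W12.GL.K1

open MeasureTheory Finset Pool.Agent.W845.GL
open scoped ENNReal

instance mu_prob : IsProbabilityMeasure mu := by
  refine ⟨?_⟩
  unfold mu
  simp

theorem pi_split {n : ℕ} (F : (Fin (n + 1) → ℝ) → ℝ≥0∞) (hF : Measurable F) :
    ∫⁻ x, F x ∂(Measure.pi fun _ : Fin (n + 1) => mu) =
      ∫⁻ a, ∫⁻ z : Fin n → ℝ, F (Fin.cons a z) ∂(Measure.pi fun _ : Fin n => mu) ∂mu := by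
  have h := measurePreserving_piFinSuccAbove (fun _ : Fin (n + 1) => mu) 0
  have hm : Measurable fun p : ℝ × (Fin n → ℝ) =>
      F ((MeasurableEquiv.piFinSuccAbove (fun _ : Fin (n + 1) => ℝ) 0).symm p) :=
    hF.comp (MeasurableEquiv.piFinSuccAbove (fun _ : Fin (n + 1) => ℝ) 0).symm.measurable
  have h1 := h.lintegral_comp hm
  simp only [MeasurableEquiv.symm_apply_apply] at h1
  rw [h1, lintegral_prod _ hm.aemeasurable]
  refine lintegral_congr fun a => lintegral_congr fun z => ?_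
  congr 1
  funext i
  refine Fin.cases ?_ (fun j => ?_) i
  · simp [MeasurableEquiv.piFinSuccAbove, Fin.insertNthEquiv]
  · simp [MeasurableEquiv.piFinSuccAbove, Fin.insertNthEquiv]

theorem pi_prod (m : ℕ) (g : ℝ → ℝ≥0∞) (hg : Measurable g) :
    ∫⁻ z : Fin m → ℝ, ∏ j, g (z j) ∂(Measure.pi fun _ : Fin m => mu) = (∫⁻ y, g y ∂mu) ^ m := by
  induction m with
  | zero => simp
  | succ m ih =>
    have hF : Measurable fun z : Fin (m + 1) → ℝ => ∏ j, g (z j) :=
      Finset.measurable_prod _ fun j _ => hg.comp (measurable_pi_apply j)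
    rw [pi_split _ hF]
    have h1 : ∀ a : ℝ, ∫⁻ z : Fin m → ℝ, ∏ j, g ((Fin.cons a z : Fin (m + 1) → ℝ) j)
        ∂(Measure.pi fun _ : Fin m => mu) = g a * (∫⁻ y, g y ∂mu) ^ m := by
      intro a
      rw [← ih, ← lintegral_const_mul]
      · refine lintegral_congr fun z => ?_
        rw [Fin.prod_univ_succ]
        simp
      · exact Finset.measurable_prod _ fun j _ => hg.comp (measurable_pi_apply j)
    simp_rw [h1]
    rw [lintegral_mul_const _ hg, pow_succ, mul_comm]

theorem restrict_eq (m : ℕ) :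
    (volume : Measure (Fin m → ℝ)).restrict (Set.univ.pi fun _ : Fin m => Set.Icc (0 : ℝ) 1) =
      Measure.pi fun _ : Fin m => mu := by
  rw [volume_pi, Measure.restrict_pi_pi]
  rfl

theorem mem_Eg {k : ℕ} (F : SimpleGraph (Fin k)) (e : Fin k × Fin k) :
    e ∈ Eg F ↔ e.1 < e.2 ∧ F.Adj e.1 e.2 := by
  simp only [Eg, Finset.mem_filter, Finset.mem_univ, true_and]

theorem star_prod (m : ℕ) (g : Fin (m + 1) → Fin (m + 1) → ℝ≥0∞) :
    ∏ e ∈ Eg (Pool.Agent.W845.GL.Star m), g e.1 e.2 = ∏ j : Fin m, g 0 j.succ := by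
  have h1 : Eg (Pool.Agent.W845.GL.Star m) = (Finset.univ : Finset (Fin m)).image
      fun j => ((0 : Fin (m + 1)), j.succ) := by
    ext e
    rw [mem_Eg, Finset.mem_image]
    unfold Pool.Agent.W845.GL.Star
    simp only [Finset.mem_univ, true_and, SimpleGraph.fromRel_adj]
    constructor
    · rintro ⟨h1, h2, h3⟩
      have h4 : e.1.val = 0 ∧ 1 ≤ e.2.val := by
        rcases h3 with h3 | h3
        · exact h3
        · exfalso
          have : e.1.val < e.2.val := h1
          omega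
      refine ⟨e.2.pred (by intro h; rw [h] at h4; simp at h4), ?_⟩
      ext
      · simp [h4.1]
      · simp
    · rintro ⟨j, rfl⟩
      refine ⟨Fin.succ_pos j, (Fin.succ_ne_zero j).symm, Or.inl ⟨rfl, ?_⟩⟩
      simp
  rw [h1, Finset.prod_image]
  intro a _ b _ hab
  simpa using hab

theorem k1 : S_K1 := by
  intro κ hκ m
  rw [restrict_eq]
  have h1 : ∀ x : Fin (m + 1) → ℝ, ∏ e ∈ Eg (Pool.Agent.W845.GL.Star m), ENNReal.ofReal (κ (x e.1) (x e.2)) =
      ∏ j : Fin m, ENNReal.ofReal (κ (x 0) (x j.succ)) := fun x =>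
    star_prod m fun a b => ENNReal.ofReal (κ (x a) (x b))
  simp_rw [h1]
  have hm : Measurable fun p : ℝ × ℝ => ENNReal.ofReal (κ p.1 p.2) :=
    ENNReal.measurable_ofReal.comp hκ
  have hF : Measurable fun x : Fin (m + 1) → ℝ =>
      ∏ j : Fin m, ENNReal.ofReal (κ (x 0) (x j.succ)) := by
    refine Finset.measurable_prod _ fun j _ => ?_
    have h2 : Measurable fun x : Fin (m + 1) → ℝ => (x 0, x j.succ) := by fun_prop
    exact hm.comp h2
  rw [pi_split _ hF]
  refine lintegral_congr fun a => ?_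
  have hg : Measurable fun y => ENNReal.ofReal (κ a y) :=
    hm.comp (measurable_const.prodMk measurable_id)
  rw [← pi_prod m _ hg]
  refine lintegral_congr fun z => ?_
  simp

end Pool.Agent.W12.GL.K1
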